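import Pool.Agent.H958.RL.Stm2
import Pool.Agent.H52.RO.Star

/-!
# Project RL: no small dense sets, uniformly in `c`
-/

set_option autoImplicit false

namespace Pool.Agent.H284.RL.Staru

open Finset Filter Topology
open scoped Classical
open Pool.Agent.W830.RD (Om gle Pr Rlz)
open Pool.Agent.H958.RO Pool.Agent.H958.RL
open Pool.Agent.H52.RO.Star (geo' arith_le term)

noncomputable section

theorem key (h1 : S_UBS) (h2 : S_TERM) (h3 : S_CNT) {c : ℝ} (hc : 0 < c) {T : ℕ} (hT : 1 ≤ T)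
    (hT2 : 4 * Real.exp 2 * c / T ≤ 1 / 2) {C : ℕ} {κ : ℝ}
    (hκ : 2 * Real.exp 1 * c * (T : ℝ) ^ C * κ ≤ 1 / 2) {n : ℕ} (hn : T ≤ n) (hcn : c < n) :
    Pr (c / n) n (fun E => ¬ Star T C κ E) ≤ 4 * (2 * Real.exp 1 * c * (T : ℝ) ^ C) / n := by
  set A : ℝ := 2 * Real.exp 1 * c * (T : ℝ) ^ C with hA
  have hTr : (0 : ℝ) < T := by exact_mod_cast hT
  have hA0 : 0 < A := by positivity
  have hn0 : (0 : ℝ) < n := by exact_mod_cast (show 0 < n by omega)
  have hp0 : 0 < c / n := by positivity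
  have hp1 : c / n < 1 := (div_lt_one hn0).2 hcn
  refine (h1 (c / n) n T C κ hp0 hp1).trans ?_
  have e1 : ∀ v ∈ (Icc 1 n).filter (fun v : ℕ => (v : ℝ) ≤ κ * n),
      ∑ x ∈ Icc 1 (v ^ 2), ((cfg n T v x (C * x)).card : ℝ) * (c / n) ^ (v + x) ≤
        (1 / 2 : ℝ) ^ v * v * (2 * A / n) := by
    intro v hv
    rw [mem_filter, mem_Icc] at hv
    have hr0 : 0 ≤ A * v / n := by positivity
    have hr1 : A * v / n ≤ 1 / 2 := by
      rw [div_le_iff₀ hn0]
      have e2 := mul_le_mul_of_nonneg_left hv.2 hA0.le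
      have e3 := mul_le_mul_of_nonneg_right hκ hn0.le
      calc A * v ≤ A * (κ * n) := e2
        _ = A * κ * n := by ring
        _ ≤ 1 / 2 * n := e3
    calc ∑ x ∈ Icc 1 (v ^ 2), ((cfg n T v x (C * x)).card : ℝ) * (c / n) ^ (v + x)
        ≤ ∑ x ∈ Icc 1 (v ^ 2), (1 / 2 : ℝ) ^ v * (A * v / n) ^ x :=
          Finset.sum_le_sum fun x _ => term h2 h3 hc hT hT2 hn hv.1.1
      _ = (1 / 2 : ℝ) ^ v * ∑ x ∈ Icc 1 (v ^ 2), (A * v / n) ^ x := by rw [Finset.mul_sum]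
      _ ≤ (1 / 2 : ℝ) ^ v * (2 * (A * v / n)) :=
          mul_le_mul_of_nonneg_left (geo' hr0 hr1 _) (by positivity)
      _ = (1 / 2 : ℝ) ^ v * v * (2 * A / n) := by ring
  refine (Finset.sum_le_sum e1).trans ?_
  have e2 : ∑ v ∈ (Icc 1 n).filter (fun v : ℕ => (v : ℝ) ≤ κ * n),
      (1 / 2 : ℝ) ^ v * v * (2 * A / n) ≤ ∑ v ∈ Icc 1 n, (1 / 2 : ℝ) ^ v * v * (2 * A / n) :=
    Finset.sum_le_sum_of_subset_of_nonneg (filter_subset _ _) fun _ _ _ => by positivity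
  refine e2.trans ?_
  rw [← Finset.sum_mul]
  calc (∑ v ∈ Icc 1 n, (1 / 2 : ℝ) ^ v * v) * (2 * A / n) ≤ 2 * (2 * A / n) :=
        mul_le_mul_of_nonneg_right (arith_le n) (by positivity)
    _ = 4 * A / n := by ring

theorem e_ge : (2 : ℝ) ≤ Real.exp 1 := by
  have := Real.exp_one_gt_d9
  linarith

theorem T_bounds {c : ℝ} (hc : 1 ≤ c) : 60 * c ≤ (⌈60 * c⌉₊ : ℝ) ∧ (⌈60 * c⌉₊ : ℝ) ≤ 61 * c := by
  refine ⟨Nat.le_ceil _, ?_⟩
  have := Nat.ceil_lt_add_one (show 0 ≤ 60 * c by linarith)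
  linarith

theorem T_ok {c : ℝ} (hc : 1 ≤ c) : 4 * Real.exp 2 * c / (⌈60 * c⌉₊ : ℝ) ≤ 1 / 2 := by
  have h1 := (T_bounds hc).1
  have h2 : Real.exp 2 ≤ 7.5 := by
    have e1 := Real.exp_one_lt_d9
    have e2 : Real.exp 2 = Real.exp 1 * Real.exp 1 := by
      rw [← Real.exp_add]
      norm_num
    rw [e2]
    nlinarith [Real.exp_pos 1]
  rw [div_le_iff₀ (by linarith)]
  nlinarith

theorem A_bound {c : ℝ} (hc : 1 ≤ c) :
    2 * Real.exp 1 * c * (⌈60 * c⌉₊ : ℝ) ^ (18 * ⌈60 * c⌉₊ + 2) ≤ Real.exp (67103 * c ^ 2) := by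
  have h1 := (T_bounds hc).2
  have h2 : (⌈60 * c⌉₊ : ℝ) ≤ Real.exp (61 * c) := by
    have := Real.add_one_le_exp (61 * c)
    linarith
  have h3 : (⌈60 * c⌉₊ : ℝ) ^ (18 * ⌈60 * c⌉₊ + 2) ≤ Real.exp (67100 * c ^ 2) := by
    refine (pow_le_pow_left₀ (by positivity) h2 _).trans ?_
    rw [← Real.exp_nat_mul]
    apply Real.exp_le_exp.2
    push_cast
    nlinarith
  have h4 : 2 * Real.exp 1 * c ≤ Real.exp (3 * c ^ 2) := by
    have e1 : c ≤ Real.exp c := by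
      have := Real.add_one_le_exp c
      linarith
    have e2 : Real.exp (2 + c) = Real.exp 1 * Real.exp 1 * Real.exp c := by
      rw [← Real.exp_add, ← Real.exp_add]
      norm_num
    have e3 : Real.exp (2 + c) ≤ Real.exp (3 * c ^ 2) := by
      apply Real.exp_le_exp.2
      nlinarith
    refine le_trans ?_ e3
    rw [e2]
    exact mul_le_mul (mul_le_mul_of_nonneg_right e_ge (Real.exp_pos _).le) e1 (by linarith)
      (by positivity)
  calc 2 * Real.exp 1 * c * (⌈60 * c⌉₊ : ℝ) ^ (18 * ⌈60 * c⌉₊ + 2)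
      ≤ Real.exp (3 * c ^ 2) * Real.exp (67100 * c ^ 2) :=
        mul_le_mul h4 h3 (by positivity) (Real.exp_pos _).le
    _ = Real.exp (67103 * c ^ 2) := by
        rw [← Real.exp_add]
        congr 1
        ring

theorem ev (η' : ℝ) (hη : 0 < η') : ∀ᶠ n : ℕ in atTop,
    67200 * (Real.log (Real.log n)) ^ 4 ≤ 1 / 2 * Real.log n ∧
    61 * (Real.log (Real.log n)) ^ 2 ≤ Real.log n ∧ Real.exp (-(1 / 2 * Real.log n)) ≤ η' ∧
    1 ≤ n := by
  have hlog : Tendsto (fun n : ℕ => Real.log (n : ℝ)) atTop atTop :=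
    Real.tendsto_log_atTop.comp tendsto_natCast_atTop_atTop
  have h4 := (Asymptotics.isLittleO_iff.1 (Real.isLittleO_pow_log_id_atTop (n := 4)))
    (show (0 : ℝ) < 1 / 134400 by norm_num)
  have h2 := (Asymptotics.isLittleO_iff.1 (Real.isLittleO_pow_log_id_atTop (n := 2)))
    (show (0 : ℝ) < 1 / 61 by norm_num)
  have h5 : Tendsto (fun n : ℕ => Real.exp (-(1 / 2 * Real.log n))) atTop (𝓝 0) := by
    apply Real.tendsto_exp_atBot.comp
    apply tendsto_neg_atTop_atBot.comp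
    exact hlog.const_mul_atTop (by norm_num)
  have h6 : ∀ᶠ n : ℕ in atTop, Real.exp (-(1 / 2 * Real.log n)) < η' :=
    h5.eventually (gt_mem_nhds hη)
  filter_upwards [hlog.eventually h4, hlog.eventually h2, h6, eventually_ge_atTop 1,
    hlog.eventually (eventually_ge_atTop 0)] with n a1 a2 a3 a4 a5
  rw [id, Real.norm_of_nonneg (by positivity), Real.norm_of_nonneg a5] at a1 a2
  refine ⟨by linarith, by linarith, a3.le, a4⟩

theorem main (h1 : Pool.Agent.H958.RO.S_UBS) (h2 : Pool.Agent.H958.RO.S_CNT)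
    (h3 : Pool.Agent.H958.RO.S_TERM) : S_STARU := by
  refine ⟨67200, by norm_num, fun η' hη => ?_⟩
  obtain ⟨N0, hN0⟩ := eventually_atTop.1 (ev η' hη)
  refine ⟨N0, fun n hn c hc hcL => ?_⟩
  obtain ⟨b1, b2, b3, b4⟩ := hN0 n hn
  have hn0 : (0 : ℝ) < n := by exact_mod_cast (show 0 < n by omega)
  have hlog : Real.log n ≤ n - 1 := Real.log_le_sub_one_of_pos hn0
  have hT := T_bounds hc
  have hTn : ⌈60 * c⌉₊ ≤ n := by
    have : (⌈60 * c⌉₊ : ℝ) ≤ n := by linarith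
    exact_mod_cast this
  have hT1 : 1 ≤ ⌈60 * c⌉₊ := Nat.one_le_iff_ne_zero.2 (by
    intro h0
    have := hT.1
    rw [h0] at this
    push_cast at this
    linarith)
  have hcn : c < n := by linarith
  have hA := A_bound hc
  refine ⟨⌈60 * c⌉₊, hT1, ?_⟩
  have hc2 : 1 ≤ c ^ 2 := by nlinarith
  have hκ : 2 * Real.exp 1 * c * (⌈60 * c⌉₊ : ℝ) ^ (18 * ⌈60 * c⌉₊ + 2) *
      Real.exp (-(67200 * c ^ 2)) ≤ 1 / 2 := by
    have e1 : Real.exp (-(67200 * c ^ 2)) * Real.exp (67103 * c ^ 2) ≤ Real.exp (-1) := by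
      rw [← Real.exp_add]
      apply Real.exp_le_exp.2
      linarith
    have e2 : Real.exp (-1) ≤ 1 / 2 := by
      rw [Real.exp_neg, one_div]
      exact inv_anti₀ (by norm_num) e_ge
    calc _ ≤ Real.exp (67103 * c ^ 2) * Real.exp (-(67200 * c ^ 2)) :=
          mul_le_mul_of_nonneg_right hA (Real.exp_pos _).le
      _ ≤ 1 / 2 := by rw [mul_comm]; exact e1.trans e2
  refine (key h1 h3 h2 (by linarith) hT1 (T_ok hc) hκ hTn hcn).trans ?_
  have f1 : 4 * (2 * Real.exp 1 * c * (⌈60 * c⌉₊ : ℝ) ^ (18 * ⌈60 * c⌉₊ + 2)) ≤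
      Real.exp (67200 * c ^ 2) := by
    have e1 : (4 : ℝ) ≤ Real.exp 2 := by
      have e2 : Real.exp 2 = Real.exp 1 * Real.exp 1 := by
        rw [← Real.exp_add]
        norm_num
      rw [e2]
      nlinarith [e_ge]
    calc _ ≤ Real.exp 2 * Real.exp (67103 * c ^ 2) := mul_le_mul e1 hA (by positivity)
          (Real.exp_pos _).le
      _ = Real.exp (2 + 67103 * c ^ 2) := by rw [← Real.exp_add]
      _ ≤ Real.exp (67200 * c ^ 2) := by
          apply Real.exp_le_exp.2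
          linarith
  have f2 : c ^ 2 ≤ (Real.log (Real.log n)) ^ 4 := by
    have := pow_le_pow_left₀ (by linarith) hcL 2
    calc c ^ 2 ≤ ((Real.log (Real.log n)) ^ 2) ^ 2 := this
      _ = (Real.log (Real.log n)) ^ 4 := by ring
  have f3 : Real.exp (67200 * c ^ 2) ≤ Real.exp (1 / 2 * Real.log n) := by
    apply Real.exp_le_exp.2
    linarith
  have f4 : (n : ℝ) = Real.exp (1 / 2 * Real.log n) * Real.exp (1 / 2 * Real.log n) := by
    rw [← Real.exp_add]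
    have : 1 / 2 * Real.log n + 1 / 2 * Real.log n = Real.log n := by ring
    rw [this, Real.exp_log hn0]
  rw [div_le_iff₀ hn0]
  calc 4 * (2 * Real.exp 1 * c * (⌈60 * c⌉₊ : ℝ) ^ (18 * ⌈60 * c⌉₊ + 2))
      ≤ Real.exp (1 / 2 * Real.log n) := f1.trans f3
    _ = Real.exp (-(1 / 2 * Real.log n)) *
        (Real.exp (1 / 2 * Real.log n) * Real.exp (1 / 2 * Real.log n)) := by
        rw [← mul_assoc, ← Real.exp_add, neg_add_cancel, Real.exp_zero, one_mul]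
    _ = Real.exp (-(1 / 2 * Real.log n)) * n := by rw [← f4]
    _ ≤ η' * n := mul_le_mul_of_nonneg_right b3 hn0.le

end

end Pool.Agent.H284.RL.Staru
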